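import Pool.Agent.GM97.GeometryLoc

/-!
# Which smooth projective varieties can generate the motive of an abelian variety

Problem `MP_c7b67c_ag`.  `GM97.Setting DM Ab` is the list of the published facts on
`DM = DM^eff(K)` (`K` algebraically closed), on the category `Ab` of abelian varieties over `K`
and on Albanese varieties which are used.  For a class `V` of smooth projective varieties,
`T.GeneratedBy V A` says that `F_A` lies in the thick triangulated subcategory generated by the
`M(Y)`, `Y` in `V`, and `T.LocallyGeneratedBy V A` that it lies in the localizing subcategory
(arbitrary coproducts allowed) generated by them.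
-/

namespace Pool.Agent.Results.MP_c7b67c_ag.CurvesDoNotSuffice

open CategoryTheory Limits

universe v u v₂ u₂ w

/-- If `F_A` lies in the localizing subcategory generated by the motives of the varieties in `V`,
then `id_A` is a finite sum of homomorphisms which factor through Albanese varieties of members of
`V`, the first factor being induced by a correspondence.  Consequently the following are
equivalent: `F_A` is in the thick subcategory generated by motives of curves; `F_A` is in the
localizing subcategory generated by motives of smooth projective varieties whose Albanese variety
is a direct summand of a product of Jacobians; `A` is a direct summand of a product of Jacobians;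
the Albanese map `M(A) ⟶ F_A` is a sum of morphisms which factor through motives of curves. -/
theorem result {DM : Type u} [Category.{v} DM] [HasZeroObject DM] [HasShift DM ℤ]
    [Preadditive DM] [∀ n : ℤ, (shiftFunctor DM n).Additive] [Pretriangulated DM]
    [IsTriangulated DM] [HasCoproducts.{w} DM]
    {Ab : Type u₂} [Category.{v₂} Ab] [Preadditive Ab] [HasFiniteBiproducts Ab]
    (T : GM97.Setting.{v, u, v₂, u₂, w} DM Ab)
    (hM : ∀ Y : T.Var, GM97.IsCompactObj.{w} (T.M Y)) (A : Ab) :
    (∀ V : T.Var → Prop, T.LocallyGeneratedBy V A → T.AlbaneseSum V A) ∧
    List.TFAE [
      T.GeneratedBy T.IsCurve A,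
      T.LocallyGeneratedBy (fun Y => T.JacobianSummand (T.Alb Y)) A,
      T.JacobianSummand A,
      T.albA A ∈ GM97.Fac (T.motives T.IsCurve) (T.M (T.und A)) (T.F.obj A)] :=
  GM97.Setting.mainLoc hM A

end Pool.Agent.Results.MP_c7b67c_ag.CurvesDoNotSuffice
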