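import Pool.Agent.GM97.Duality

/-!
# Geometricity of the motive of an abelian variety and its twisted dual

Problem `MP_c7b67c_ag`.  `GM97.DualSetting DM Ab` is the list of the published facts on
`DM = DM(K)` (`K` algebraically closed), on abelian varieties and Albanese varieties and on the
duality `N ↦ D(N) = Hom(N, ℤ(1)[2])` which are used.
-/

namespace Pool.Agent.Results.MP_c7b67c_ag.EffectiveDual

open CategoryTheory Limits Opposite

universe v u v₂ u₂ w

/-- `A` is a direct summand of a finite product of Jacobians if and only if `F_A` is geometric and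
its dual `D(F_A)` is effective and without higher cohomology on smooth projective varieties.  In
particular this holds if `F_A` is geometric and `D(F_A) = F_B` for an abelian variety `B` such that
`F_B` is in the localizing subcategory generated by motives of smooth projective varieties. -/
theorem result {DM : Type u} [Category.{v} DM] [HasZeroObject DM] [HasShift DM ℤ]
    [Preadditive DM] [∀ n : ℤ, (shiftFunctor DM n).Additive] [Pretriangulated DM]
    [IsTriangulated DM] [HasCoproducts.{w} DM]
    {Ab : Type u₂} [Category.{v₂} Ab] [Preadditive Ab] [HasFiniteBiproducts Ab]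
    (T : GM97.DualSetting.{v, u, v₂, u₂, w} DM Ab)
    (hgeo : ∀ N : DM, T.geo N → GM97.IsCompactObj.{w} N) (A : Ab) :
    (T.JacobianSummand A ↔ (T.GeneratedBy T.all A ∧ T.EffectiveDual A)) ∧
    (∀ B : Ab, T.GeneratedBy T.all A → T.LocallyGeneratedBy T.all B →
      Nonempty (T.D.obj (op (T.F.obj A)) ≅ T.F.obj B) → T.JacobianSummand A) :=
  ⟨GM97.DualSetting.main hgeo A,
    fun _ hA hB ⟨e⟩ => GM97.DualSetting.jacobianSummand_of_dual hgeo hA hB e⟩

end Pool.Agent.Results.MP_c7b67c_ag.EffectiveDual
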